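import Pool.Agent.E8helper64.GC.Stm

/-!
# The lines of the example (MP_6429ad_ag)
-/

set_option autoImplicit false

namespace Pool.Agent.E8helper40.GC

open MvPolynomial Filter Pool.Agent.E8helper64.GC

universe u

variable {K : Type u} [Field K]

theorem mem_Lt (s : Fin 11) (x : Fin 10 → K) : x ∈ Lt K s ↔
    (∀ i, i ∉ al s → x i = 0) ∧ (s = 8 → x 6 = x 7) ∧ (s = 10 → x 8 = x 9) := Iff.rfl

/-- first coordinate -/
def ia : Fin 11 → Fin 10 := ![6, 8, 6, 0, 8, 7, 1, 9, 6, 2, 8]

/-- second coordinate -/
def ib : Fin 11 → Fin 10 := ![7, 9, 0, 3, 3, 1, 4, 4, 2, 5, 5]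

theorem E_apply (i j : Fin 10) : E K i j = if j = i then 1 else 0 := by
  unfold E
  rw [Pi.single_apply]

theorem pv_mem (s : Fin 11) : pv K s ∈ Lt K s := by
  rw [mem_Lt]
  fin_cases s <;> refine ⟨fun i hi => ?_, ?_, ?_⟩ <;>
    first
      | (fin_cases i <;> simp [al, pv, E_apply] at hi ⊢)
      | simp [pv, E_apply]

theorem qv_mem (s : Fin 11) : qv K s ∈ Lt K s := by
  rw [mem_Lt]
  fin_cases s <;> refine ⟨fun i hi => ?_, ?_, ?_⟩ <;>
    first
      | (fin_cases i <;> simp [al, qv, E_apply] at hi ⊢)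
      | simp [qv, E_apply]

theorem rep {s : Fin 11} {x : Fin 10 → K} (h : x ∈ Lt K s) :
    x = x (ia s) • pv K s + x (ib s) • qv K s := by
  obtain ⟨h1, h2, h3⟩ := (mem_Lt s x).1 h
  ext j
  by_cases hj : j ∈ al s
  · fin_cases s <;> fin_cases j <;> simp [al, ia, ib, pv, qv, E_apply] at hj h2 h3 ⊢ <;>
      first | exact h2.symm | exact h3.symm
  · rw [h1 j hj, Pi.add_apply, Pi.smul_apply, Pi.smul_apply, ((mem_Lt s _).1 (pv_mem s)).1 j hj,
      ((mem_Lt s _).1 (qv_mem s)).1 j hj, smul_zero, smul_zero, add_zero]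

theorem pv_ia (s : Fin 11) : pv K s (ia s) = 1 := by
  fin_cases s <;> simp [ia, pv, E_apply]

theorem pv_ib (s : Fin 11) : pv K s (ib s) = 0 := by
  fin_cases s <;> simp [ib, pv, E_apply]

theorem qv_ia (s : Fin 11) : qv K s (ia s) = 0 := by
  fin_cases s <;> simp [ia, qv, E_apply]

theorem qv_eq (s : Fin 11) : qv K s = E K (ib s) := by
  fin_cases s <;> rfl

theorem qv_ib (s : Fin 11) : qv K s (ib s) = 1 := by
  rw [qv_eq, E_apply, if_pos rfl]

theorem li_pq (s : Fin 11) : LinearIndependent K ![pv K s, qv K s] := by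
  rw [LinearIndependent.pair_iff]
  intro a b h
  have h1 := congrFun h (ia s)
  have h2 := congrFun h (ib s)
  rw [Pi.add_apply, Pi.smul_apply, Pi.smul_apply, pv_ia, qv_ia, Pi.zero_apply] at h1
  rw [Pi.add_apply, Pi.smul_apply, Pi.smul_apply, pv_ib, qv_ib, Pi.zero_apply] at h2
  simp at h1 h2
  exact ⟨h1, h2⟩

theorem span_pq (s : Fin 11) : Lt K s = Submodule.span K {pv K s, qv K s} := by
  apply le_antisymm
  · intro x hx
    rw [rep hx]
    exact Submodule.add_mem _ (Submodule.smul_mem _ _ (Submodule.subset_span (by simp)))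
      (Submodule.smul_mem _ _ (Submodule.subset_span (by simp)))
  · rw [Submodule.span_le]
    rintro x (rfl | rfl)
    · exact pv_mem s
    · exact qv_mem s

/-- the earlier neighbour with common point `pv` -/
def pn : Fin 11 → Option (Fin 11) :=
  ![none, none, some 0, some 2, some 1, some 0, some 5, some 1, some 0, some 8, some 1]

/-- the earlier neighbour with common point `qv` -/
def qn : Fin 11 → Option (Fin 11) :=
  ![none, none, none, some 4, none, none, some 7, none, none, some 10, none]

theorem inter_p {s a : Fin 11} (h : pn s = some a) : Lt K a ⊓ Lt K s = Submodule.span K {pv K s} := by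
  have h0 : pv K s ∈ Lt K a ∧ ∀ x ∈ Lt K a, x (ib s) = 0 := by
    revert h
    fin_cases s <;> fin_cases a <;> intro h <;>
      first
        | (exfalso; revert h; decide)
        | (refine ⟨?_, fun x hx => ?_⟩
           · rw [mem_Lt]
             refine ⟨fun i hi => ?_, ?_, ?_⟩
             · fin_cases i <;> simp [al, pv, E_apply] at hi ⊢
             · simp [pv, E_apply]
             · simp [pv, E_apply]
           · exact hx.1 _ (by decide))
  apply le_antisymm
  · rintro x ⟨hx1, hx2⟩
    rw [Submodule.mem_span_singleton]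
    refine ⟨x (ia s), ?_⟩
    have h3 := rep hx2
    rw [h0.2 x hx1, zero_smul, add_zero] at h3
    exact h3.symm
  · rw [Submodule.span_singleton_le_iff_mem]
    exact ⟨h0.1, pv_mem s⟩

theorem inter_q {s a : Fin 11} (h : qn s = some a) : Lt K a ⊓ Lt K s = Submodule.span K {qv K s} := by
  have h0 : qv K s ∈ Lt K a ∧ ∀ x ∈ Lt K a, x (ia s) = 0 := by
    revert h
    fin_cases s <;> fin_cases a <;> intro h <;>
      first
        | (exfalso; revert h; decide)
        | (refine ⟨?_, fun x hx => ?_⟩
           · rw [mem_Lt]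
             refine ⟨fun i hi => ?_, ?_, ?_⟩
             · fin_cases i <;> simp [al, qv, E_apply] at hi ⊢
             · simp [qv, E_apply]
             · simp [qv, E_apply]
           · exact hx.1 _ (by decide))
  apply le_antisymm
  · rintro x ⟨hx1, hx2⟩
    rw [Submodule.mem_span_singleton]
    refine ⟨x (ib s), ?_⟩
    have h3 := rep hx2
    rw [h0.2 x hx1, zero_smul, zero_add] at h3
    exact h3.symm
  · rw [Submodule.span_singleton_le_iff_mem]
    exact ⟨h0.1, qv_mem s⟩

/-- neighbouring lines -/
def nbr (a s : Fin 11) : Prop := pn s = some a ∨ qn s = some a ∨ pn a = some s ∨ qn a = some s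

instance (a s : Fin 11) : Decidable (nbr a s) := by unfold nbr; infer_instance

theorem inter_bot {s a : Fin 11} (h : a ≠ s) (h' : ¬ nbr a s) : Lt K a ⊓ Lt K s = ⊥ := by
  rw [eq_bot_iff]
  rintro x ⟨hx1, hx2⟩
  rw [Submodule.mem_bot]
  obtain ⟨a1, a2, a3⟩ := (mem_Lt a x).1 hx1
  obtain ⟨s1, s2, s3⟩ := (mem_Lt s x).1 hx2
  have key : x (ia s) = 0 ∧ x (ib s) = 0 := by
    revert h h'
    fin_cases s <;> fin_cases a <;> intro h h' <;>
      first
        | (exfalso; revert h h'; decide)
        | (refine ⟨?_, ?_⟩ <;>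
            first
              | exact a1 _ (by decide)
              | exact (a2 rfl).trans (s1 _ (by decide))
              | exact (a2 rfl).symm.trans (s1 _ (by decide))
              | exact (a3 rfl).trans (s1 _ (by decide))
              | exact (a3 rfl).symm.trans (s1 _ (by decide))
              | exact (s2 rfl).trans (a1 _ (by decide))
              | exact (s3 rfl).trans (a1 _ (by decide)))
  rw [rep hx2, key.1, key.2, zero_smul, zero_smul, add_zero]

end Pool.Agent.E8helper40.GC
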