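import Pool.Agent.E8helper40.GC.Basic

/-!
# The chain of lines (MP_6429ad_ag, piece S_CHAIN)
-/

set_option autoImplicit false

namespace Pool.Agent.E8helper40.GC

open MvPolynomial Filter Pool.Agent.E8helper64.GC

universe u

variable {K : Type u} [Field K]

theorem ib_zero {s c : Fin 11} (h : ib s ∉ al c) {m : Fin 10 → K} (hm : m ∈ Lt K c) : m (ib s) = 0 :=
  hm.1 _ h

theorem ia_zero {s c : Fin 11} (h : ia s ∉ al c) {m : Fin 10 → K} (hm : m ∈ Lt K c) : m (ia s) = 0 :=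
  hm.1 _ h

/-- the first condition -/
theorem u1_of {Λ : Submodule K (Fin 10 → K)} {s c : Fin 11} (hc : ib s ∉ al c)
    (h1 : Λ ⊓ Lt K s ≠ ⊥) (h2 : pv K s ∈ Λ → Lt K s ≤ Λ ⊔ Lt K c) : U1 Λ s c (ib s) := by
  by_cases hp : pv K s ∈ Λ
  · obtain ⟨lam, hl, m, hm, he⟩ := Submodule.mem_sup.1 (h2 hp (qv_mem s))
    refine ⟨lam, hl, ?_, ?_⟩
    · rw [show lam = qv K s + (-m) by rw [← he]; abel]
      exact Submodule.add_mem _ (Submodule.mem_sup_left (qv_mem s))
        (Submodule.mem_sup_right (Submodule.neg_mem _ hm))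
    · have h3 := congrFun he (ib s)
      rw [Pi.add_apply, ib_zero hc hm, add_zero, qv_ib] at h3
      rw [h3]
      exact one_ne_zero
  · obtain ⟨z, hz, hz0⟩ := (Submodule.ne_bot_iff _).1 h1
    refine ⟨z, hz.1, Submodule.mem_sup_left hz.2, fun h3 => hp ?_⟩
    have h4 := rep hz.2
    rw [h3, zero_smul, add_zero] at h4
    have h5 : z (ia s) ≠ 0 := by
      intro h5
      rw [h5, zero_smul] at h4
      exact hz0 h4
    have h6 : pv K s = (z (ia s))⁻¹ • z := by
      conv_rhs => rw [h4]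
      rw [Pi.smul_apply, pv_ia, smul_eq_mul, mul_one, smul_smul, inv_mul_cancel₀ h5, one_smul]
    rw [h6]
    exact Submodule.smul_mem _ _ hz.1

/-- the second condition -/
theorem u2_of {Λ : Submodule K (Fin 10 → K)} {r s c : Fin 11} (hr : ib s ∉ al r) (hc : ia s ∉ al c)
    (h1 : Λ ⊓ Lt K s ≠ ⊥) (h2 : pv K s ∈ Λ → Lt K s ≤ Λ ⊔ Lt K r)
    (h3 : qv K s ∈ Λ → Lt K s ≤ Λ ⊔ Lt K c) (hE : pv K s = E K (ia s)) :
    U2 Λ r s c (ia s) (ib s) := by
  obtain ⟨z, hz, hz0⟩ := (Submodule.ne_bot_iff _).1 h1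
  have h4 := rep hz.2
  by_cases ha : z (ia s) = 0
  · have hb : z (ib s) ≠ 0 := by
      intro hb
      rw [ha, hb, zero_smul, zero_smul, add_zero] at h4
      exact hz0 h4
    rw [ha, zero_smul, zero_add] at h4
    have h6 : qv K s = (z (ib s))⁻¹ • z := by
      conv_rhs => rw [h4]
      rw [Pi.smul_apply, qv_ib, smul_eq_mul, mul_one, smul_smul, inv_mul_cancel₀ hb, one_smul]
    have h7 : qv K s ∈ Λ := by
      rw [h6]
      exact Submodule.smul_mem _ _ hz.1
    obtain ⟨lam, hl, m, hm, he⟩ := Submodule.mem_sup.1 (h3 h7 (pv_mem s))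
    right
    right
    refine ⟨by rw [← qv_eq]; exact h7, lam, hl, ?_, ?_⟩
    · rw [show lam = (-m) + pv K s by rw [← he]; abel]
      exact Submodule.add_mem _ (Submodule.mem_sup_left (Submodule.neg_mem _ hm))
        (Submodule.mem_sup_right (pv_mem s))
    · have h8 := congrFun he (ia s)
      rw [Pi.add_apply, ia_zero hc hm, add_zero, pv_ia] at h8
      rw [h8]
      exact one_ne_zero
  · by_cases hb : z (ib s) = 0
    · rw [hb, zero_smul, add_zero] at h4
      have h6 : pv K s = (z (ia s))⁻¹ • z := by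
        conv_rhs => rw [h4]
        rw [Pi.smul_apply, pv_ia, smul_eq_mul, mul_one, smul_smul, inv_mul_cancel₀ ha, one_smul]
      have h7 : pv K s ∈ Λ := by
        rw [h6]
        exact Submodule.smul_mem _ _ hz.1
      obtain ⟨lam, hl, m, hm, he⟩ := Submodule.mem_sup.1 (h2 h7 (qv_mem s))
      right
      left
      refine ⟨by rw [← hE]; exact h7, lam, hl, ?_, ?_⟩
      · rw [show lam = (-m) + qv K s by rw [← he]; abel]
        exact Submodule.add_mem _ (Submodule.mem_sup_left (Submodule.neg_mem _ hm))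
          (Submodule.mem_sup_right (qv_mem s))
      · have h8 := congrFun he (ib s)
        rw [Pi.add_apply, ib_zero hr hm, add_zero, qv_ib] at h8
        rw [h8]
        exact one_ne_zero
    · exact Or.inl ⟨z, hz.1, hz.2, ha, hb⟩

/-- if the line is not good then it counts -/
theorem us_of {Λ : Submodule K (Fin 10 → K)} {s : Fin 11} (h1 : Λ ⊓ Lt K s ≠ ⊥)
    (h2 : ∀ a, pn s = some a → pv K s ∈ Λ → Lt K s ≤ Λ ⊔ Lt K a)
    (h3 : ∀ a, qn s = some a → qv K s ∈ Λ → Lt K s ≤ Λ ⊔ Lt K a) : Us Λ s := by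
  refine ⟨h1, ?_⟩
  fin_cases s
  · exact trivial
  · exact trivial
  · exact u1_of (s := 2) (c := 0) (by decide) h1 (h2 0 rfl)
  · exact u2_of (r := 2) (s := 3) (c := 4) (by decide) (by decide) h1 (h2 2 rfl) (h3 4 rfl) rfl
  · exact u1_of (s := 4) (c := 1) (by decide) h1 (h2 1 rfl)
  · exact u1_of (s := 5) (c := 0) (by decide) h1 (h2 0 rfl)
  · exact u2_of (r := 5) (s := 6) (c := 7) (by decide) (by decide) h1 (h2 5 rfl) (h3 7 rfl) rfl
  · exact u1_of (s := 7) (c := 1) (by decide) h1 (h2 1 rfl)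
  · exact u1_of (s := 8) (c := 0) (by decide) h1 (h2 0 rfl)
  · exact u2_of (r := 8) (s := 9) (c := 10) (by decide) (by decide) h1 (h2 8 rfl) (h3 10 rfl) rfl
  · exact u1_of (s := 10) (c := 1) (by decide) h1 (h2 1 rfl)

/-- the Hilbert function of the union of the lines in `A` and of `Λ` -/
noncomputable def hh (Λ : Submodule K (Fin 10 → K)) (A : Finset (Fin 11)) (t : ℕ) : ℕ :=
  hf (vI {x | ∃ a ∈ A, x ∈ Lt K a} ⊔ vI (Λ : Set (Fin 10 → K))) t

open Classical in
/-- the contribution of a line -/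
noncomputable def uu (Λ : Submodule K (Fin 10 → K)) (s : Fin 11) : ℕ := if Us Λ s then 1 else 0

theorem step (h : S_STEP.{u}) [Infinite K] (Λ : Submodule K (Fin 10 → K)) (hΛ : ∀ s, ¬ Lt K s ≤ Λ)
    (A : Finset (Fin 11)) (s : Fin 11)
    (hA : ∀ a ∈ A, a ≠ s ∧ (nbr a s → pn s = some a ∨ qn s = some a))
    (hp : ∀ a, pn s = some a → a ∈ A) (hq : ∀ a, qn s = some a → a ∈ A) :
    ∀ᶠ t in atTop, hh Λ (insert s A) t ≤ hh Λ A t + uu Λ s := by
  have hpq : pv K s ≠ 0 := (li_pq (K := K) s).ne_zero 0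
  have hqv : qv K s ≠ 0 := (li_pq (K := K) s).ne_zero 1
  have hne : Submodule.span K {pv K s} ≠ Submodule.span K {qv K s} := by
    intro he
    have h1 : pv K s ∈ Submodule.span K {qv K s} := by
      rw [← he]; exact Submodule.mem_span_singleton_self _
    obtain ⟨c, hc⟩ := Submodule.mem_span_singleton.1 h1
    have h2 := congrFun hc (ia s)
    rw [Pi.smul_apply, qv_ia, pv_ia, smul_zero] at h2
    exact zero_ne_one h2
  have key : ∀ a ∈ A, (pn s = some a ∧ Lt K a ⊓ Lt K s = Submodule.span K {pv K s}) ∨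
      (qn s = some a ∧ Lt K a ⊓ Lt K s = Submodule.span K {qv K s}) ∨ Lt K a ⊓ Lt K s = ⊥ := by
    intro a ha
    by_cases hn : nbr a s
    · rcases (hA a ha).2 hn with h1 | h1
      · exact Or.inl ⟨h1, inter_p h1⟩
      · exact Or.inr (Or.inl ⟨h1, inter_q h1⟩)
    · exact Or.inr (Or.inr (inter_bot (hA a ha).1 hn))
  have hps : Submodule.span K {pv K s} ≠ ⊥ := by
    rw [Ne, Submodule.span_singleton_eq_bot]; exact hpq
  have hqs : Submodule.span K {qv K s} ≠ ⊥ := by
    rw [Ne, Submodule.span_singleton_eq_bot]; exact hqv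
  have kp : ∀ a ∈ A, Lt K a ⊓ Lt K s = Submodule.span K {pv K s} → pn s = some a := by
    intro a ha he
    rcases key a ha with h1 | h1 | h1
    · exact h1.1
    · exact absurd (he.symm.trans h1.2) hne
    · exact absurd (he.symm.trans h1) hps
  have kq : ∀ a ∈ A, Lt K a ⊓ Lt K s = Submodule.span K {qv K s} → qn s = some a := by
    intro a ha he
    rcases key a ha with h1 | h1 | h1
    · exact absurd (h1.2.symm.trans he) hne
    · exact h1.1
    · exact absurd (he.symm.trans h1) hqs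
  obtain ⟨r1, r2⟩ := h K 10 (Fin 11) A (fun a => Lt K a) (pv K s) (qv K s) (Lt K s) Λ (li_pq s)
    (span_pq s) (fun a ha => by
      rcases key a ha with h1 | h1 | h1
      · exact Or.inr (Or.inl h1.2)
      · exact Or.inr (Or.inr h1.2)
      · exact Or.inl h1)
    (fun a ha b hb h1 h2 => Option.some_injective _ ((kp a ha h1).symm.trans (kp b hb h2)))
    (fun a ha b hb h1 h2 => Option.some_injective _ ((kq a ha h1).symm.trans (kq b hb h2)))
    (hΛ s)
  have hset : {x | ∃ a ∈ insert s A, x ∈ Lt K a} =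
      {x | ∃ a ∈ A, x ∈ Lt K a} ∪ (Lt K s : Set (Fin 10 → K)) := by
    ext x
    simp only [Finset.mem_insert, Set.mem_ofPred_eq, Set.mem_union, SetLike.mem_coe]
    constructor
    · rintro ⟨a, rfl | ha, hx⟩
      · exact Or.inr hx
      · exact Or.inl ⟨a, ha, hx⟩
    · rintro (⟨a, ha, hx⟩ | hx)
      · exact ⟨a, Or.inr ha, hx⟩
      · exact ⟨s, Or.inl rfl, hx⟩
  unfold hh
  rw [hset]
  by_cases hu : Us Λ s
  · rw [show uu Λ s = 1 by unfold uu; rw [if_pos hu]]
    exact r1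
  · rw [show uu Λ s = 0 by unfold uu; rw [if_neg hu]]
    refine r2 ?_
    by_contra hg
    push Not at hg
    obtain ⟨g1, g2, g3⟩ := hg
    refine hu (us_of (by rw [inf_comm]; exact g1) (fun a ha hpa => ?_) (fun a ha hqa => ?_))
    · exact g2 a (hp a ha) (inter_p ha) hpa
    · exact g3 a (hq a ha) (inter_q ha) hqa

theorem t_CHAIN (h : S_STEP.{u}) : S_CHAIN.{u} := by
  intro K _ _ Λ hΛ
  have e0 := step h Λ hΛ ∅ 0 (by decide) (by decide) (by decide)
  have e1 := step h Λ hΛ {0} 1 (by decide) (by decide) (by decide)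
  have e2 := step h Λ hΛ {1, 0} 2 (by decide) (by decide) (by decide)
  have e5 := step h Λ hΛ {2, 1, 0} 5 (by decide) (by decide) (by decide)
  have e8 := step h Λ hΛ {5, 2, 1, 0} 8 (by decide) (by decide) (by decide)
  have e4 := step h Λ hΛ {8, 5, 2, 1, 0} 4 (by decide) (by decide) (by decide)
  have e7 := step h Λ hΛ {4, 8, 5, 2, 1, 0} 7 (by decide) (by decide) (by decide)
  have e10 := step h Λ hΛ {7, 4, 8, 5, 2, 1, 0} 10 (by decide) (by decide) (by decide)
  have e3 := step h Λ hΛ {10, 7, 4, 8, 5, 2, 1, 0} 3 (by decide) (by decide) (by decide)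
  have e6 := step h Λ hΛ {3, 10, 7, 4, 8, 5, 2, 1, 0} 6 (by decide) (by decide) (by decide)
  have e9 := step h Λ hΛ {6, 3, 10, 7, 4, 8, 5, 2, 1, 0} 9 (by decide) (by decide) (by decide)
  have hz : ∀ t, hh Λ ∅ t = 0 := by
    intro t
    have h1 : vI ({x | ∃ a ∈ (∅ : Finset (Fin 11)), x ∈ Lt K a} : Set (Fin 10 → K)) = ⊤ := by
      rw [Ideal.eq_top_iff_one]
      intro x hx
      obtain ⟨a, ha, -⟩ := hx
      exact absurd ha (Finset.notMem_empty a)
    unfold hh hf
    rw [h1, top_sup_eq, Submodule.restrictScalars_top, Submodule.comap_top]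
    have : Subsingleton (homogeneousSubmodule (Fin 10) K t ⧸
        (⊤ : Submodule K (homogeneousSubmodule (Fin 10) K t))) :=
      Submodule.Quotient.subsingleton_iff.2 rfl
    exact Module.finrank_zero_of_subsingleton
  have hcard : {s | Us Λ s}.ncard = ∑ s, uu Λ s := by
    classical
    rw [Set.ncard_eq_toFinset_card', Finset.card_eq_sum_ones, Set.toFinset_ofPred, Finset.sum_filter]
    rfl
  have hall : {x | ∃ a ∈ (insert 9 {6, 3, 10, 7, 4, 8, 5, 2, 1, 0} : Finset (Fin 11)), x ∈ Lt K a} =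
      Xt K := by
    ext x
    constructor
    · rintro ⟨a, -, ha⟩
      exact ⟨a, ha⟩
    · rintro ⟨a, ha⟩
      exact ⟨a, by clear ha; revert a; decide, ha⟩
  filter_upwards [e0, e1, e2, e5, e8, e4, e7, e10, e3, e6, e9] with t f0 f1 f2 f5 f8 f4 f7 f10 f3 f6 f9
  have hsum : ∑ s, uu Λ s = uu Λ 0 + (uu Λ 1 + (uu Λ 2 + (uu Λ 3 + (uu Λ 4 + (uu Λ 5 + (uu Λ 6 +
      (uu Λ 7 + (uu Λ 8 + (uu Λ 9 + (uu Λ 10 + 0)))))))))) := by
    simp only [Fin.sum_univ_succ, Fin.sum_univ_zero]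
    rfl
  rw [hcard, hsum, ← hall]
  have g0 := hz t
  change hh Λ (insert 0 ∅) t ≤ hh Λ ∅ t + uu Λ 0 at f0
  have g1 : hh Λ (insert 0 ∅) t = hh Λ {0} t := rfl
  have g9 : hf (vI {x | ∃ a ∈ (insert 9 {6, 3, 10, 7, 4, 8, 5, 2, 1, 0} : Finset (Fin 11)), x ∈ Lt K a} ⊔
      vI (Λ : Set (Fin 10 → K))) t = hh Λ (insert 9 {6, 3, 10, 7, 4, 8, 5, 2, 1, 0}) t := rfl
  rw [g9]
  omega

end Pool.Agent.E8helper40.GC
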