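import Pool.Agent.E8helper40.GC.Basic

/-!
# Three subspaces of the secant variety (MP_6429ad_ag, piece S_GEN)
-/

set_option autoImplicit false

namespace Pool.Agent.E8helper40.GC

open MvPolynomial Filter Pool.Agent.E8helper64.GC

universe u

variable {K : Type u} [Field K]

/-- the four lines -/
def SS : Fin 3 → Fin 4 → Fin 11 := ![![2, 4, 6, 9], ![5, 7, 3, 9], ![8, 10, 3, 6]]

theorem SS_off : ∀ (i : Fin 3) (k : Fin 4) (s : Fin 11), s ≠ SS i k →
    ia (SS i k) ∉ al s ∨ ib (SS i k) ∉ al s := by decide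

theorem SS_dis : ∀ (i : Fin 3) (j k : Fin 4), j ≠ k →
    ia (SS i k) ∉ al (SS i j) ∧ ib (SS i k) ∉ al (SS i j) := by decide

/-- the point of the line -/
def QQ (x : Fin 10 → K) (i : Fin 3) (k : Fin 4) : Fin 10 → K :=
  x (ia (SS i k)) • pv K (SS i k) + x (ib (SS i k)) • qv K (SS i k)

theorem QQ_mem (x : Fin 10 → K) (i : Fin 3) (k : Fin 4) : QQ x i k ∈ Lt K (SS i k) :=
  Submodule.add_mem _ (Submodule.smul_mem _ _ (pv_mem _)) (Submodule.smul_mem _ _ (qv_mem _))

theorem QQ_ia (x : Fin 10 → K) (i : Fin 3) (j k : Fin 4) :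
    QQ x i j (ia (SS i k)) = if j = k then x (ia (SS i k)) else 0 := by
  split_ifs with h
  · subst h
    unfold QQ
    rw [Pi.add_apply, Pi.smul_apply, Pi.smul_apply, pv_ia, qv_ia]
    simp
  · exact (QQ_mem x i j).1 _ (SS_dis i j k h).1

theorem QQ_ib (x : Fin 10 → K) (i : Fin 3) (j k : Fin 4) :
    QQ x i j (ib (SS i k)) = if j = k then x (ib (SS i k)) else 0 := by
  split_ifs with h
  · subst h
    unfold QQ
    rw [Pi.add_apply, Pi.smul_apply, Pi.smul_apply, pv_ib, qv_ib]
    simp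
  · exact (QQ_mem x i j).1 _ (SS_dis i j k h).2

theorem sum_QQ {x : Fin 10 → K} {i : Fin 3} (hx : x ∈ Dt K i) : x = ∑ k, QQ x i k := by
  ext j
  rw [Fin.sum_univ_four]
  fin_cases i
  · obtain ⟨h1, h2⟩ : x 7 = 0 ∧ x 9 = 0 := by simpa [Dt] using hx
    fin_cases j <;> simp [QQ, SS, ia, ib, pv, qv, E_apply, h1, h2]
  · obtain ⟨h1, h2⟩ : x 6 = 0 ∧ x 8 = 0 := by simpa [Dt] using hx
    fin_cases j <;> simp [QQ, SS, ia, ib, pv, qv, E_apply, h1, h2]
  · obtain ⟨h1, h2⟩ : x 6 = x 7 ∧ x 8 = x 9 := by simpa [Dt] using hx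
    fin_cases j <;> simp [QQ, SS, ia, ib, pv, qv, E_apply, h1, h2]

/-- the coordinates of a combination -/
theorem comb_ia (x : Fin 10 → K) (i : Fin 3) (t : Fin 4 → K) (k : Fin 4) :
    (∑ j, t j • QQ x i j) (ia (SS i k)) = t k * x (ia (SS i k)) := by
  rw [Finset.sum_apply, Finset.sum_eq_single k]
  · rw [Pi.smul_apply, QQ_ia, if_pos rfl, smul_eq_mul]
  · intro j _ hj
    rw [Pi.smul_apply, QQ_ia, if_neg hj, smul_zero]
  · intro h
    exact absurd (Finset.mem_univ k) h

theorem comb_ib (x : Fin 10 → K) (i : Fin 3) (t : Fin 4 → K) (k : Fin 4) :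
    (∑ j, t j • QQ x i j) (ib (SS i k)) = t k * x (ib (SS i k)) := by
  rw [Finset.sum_apply, Finset.sum_eq_single k]
  · rw [Pi.smul_apply, QQ_ib, if_pos rfl, smul_eq_mul]
  · intro j _ hj
    rw [Pi.smul_apply, QQ_ib, if_neg hj, smul_zero]
  · intro h
    exact absurd (Finset.mem_univ k) h

theorem mem_span_QQ {x : Fin 10 → K} {i : Fin 3} {z : Fin 10 → K}
    (hz : z ∈ Submodule.span K (Set.range (QQ x i))) : ∃ t : Fin 4 → K, ∑ j, t j • QQ x i j = z := by
  exact (Submodule.mem_span_range_iff_exists_fun K).1 hz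

/-- the coordinates are nonzero -/
def NZ (x : Fin 10 → K) (i : Fin 3) : Prop := ∀ k, x (ia (SS i k)) ≠ 0 ∧ x (ib (SS i k)) ≠ 0

theorem li_QQ {x : Fin 10 → K} {i : Fin 3} (hx : NZ x i) : LinearIndependent K (QQ x i) := by
  rw [Fintype.linearIndependent_iff]
  intro t ht k
  have h1 := comb_ia x i t k
  rw [ht, Pi.zero_apply] at h1
  exact (mul_eq_zero.1 h1.symm).resolve_right (hx k).1

theorem span_inf {x : Fin 10 → K} {i : Fin 3} (hx : NZ x i) {s : Fin 11} (hs : ∀ k, s ≠ SS i k) :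
    Submodule.span K (Set.range (QQ x i)) ⊓ Lt K s = ⊥ := by
  rw [eq_bot_iff]
  rintro z ⟨hz1, hz2⟩
  obtain ⟨t, rfl⟩ := mem_span_QQ hz1
  have ht : ∀ k, t k = 0 := by
    intro k
    rcases SS_off i k s (hs k) with h | h
    · have h1 := comb_ia x i t k
      rw [hz2.1 _ h] at h1
      exact (mul_eq_zero.1 h1.symm).resolve_right (hx k).1
    · have h1 := comb_ib x i t k
      rw [hz2.1 _ h] at h1
      exact (mul_eq_zero.1 h1.symm).resolve_right (hx k).2
  rw [Submodule.mem_bot]
  simp [ht]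

theorem not_le {x : Fin 10 → K} {i : Fin 3} (hx : NZ x i) (s : Fin 11) :
    ¬ Lt K s ≤ Submodule.span K (Set.range (QQ x i)) := by
  intro hle
  by_cases hs : ∃ k, s = SS i k
  · obtain ⟨k, rfl⟩ := hs
    obtain ⟨t, ht⟩ := mem_span_QQ (hle (pv_mem _))
    have h1 := comb_ib x i t k
    have h2 := comb_ia x i t k
    rw [ht, pv_ib] at h1
    rw [ht, pv_ia] at h2
    rw [(mul_eq_zero.1 h1.symm).resolve_right (hx k).2, zero_mul] at h2
    exact one_ne_zero h2
  · push Not at hs
    have h1 : pv K s ∈ Submodule.span K (Set.range (QQ x i)) ⊓ Lt K s := ⟨hle (pv_mem s), pv_mem s⟩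
    rw [span_inf hx hs, Submodule.mem_bot] at h1
    exact (li_pq (K := K) s).ne_zero 0 h1

theorem mem_sec (h : S_CHAIN.{u}) (h2 : S_LOW2.{u}) [Infinite K] {x : Fin 10 → K} {i : Fin 3}
    (hD : x ∈ Dt K i) (hx : NZ x i) : x ∈ Sec (Xt K) 3 := by
  refine ⟨Submodule.span K (Set.range (QQ x i)), ?_, ?_, ?_⟩
  · rw [finrank_span_eq_card (li_QQ hx)]
    rfl
  · refine ⟨4, le_refl _, ?_⟩
    have c1 := h K (Submodule.span K (Set.range (QQ x i))) (not_le hx)
    have c2 := h2 K 10 4 (Xt K) (Submodule.span K (Set.range (QQ x i))) (QQ x i)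
      (fun k => ⟨SS i k, QQ_mem x i k⟩) (fun k => Submodule.subset_span ⟨k, rfl⟩)
      (fun k => (li_QQ hx).ne_zero k) (fun j k hjk => by
        rw [LinearIndependent.pair_iff]
        intro a b hab
        have e1 := congrFun hab (ia (SS i j))
        have e2 := congrFun hab (ia (SS i k))
        rw [Pi.add_apply, Pi.smul_apply, Pi.smul_apply, QQ_ia, QQ_ia, if_pos rfl,
          if_neg (Ne.symm hjk), smul_zero, add_zero, Pi.zero_apply] at e1
        rw [Pi.add_apply, Pi.smul_apply, Pi.smul_apply, QQ_ia, QQ_ia, if_pos rfl,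
          if_neg hjk, smul_zero, zero_add, Pi.zero_apply] at e2
        exact ⟨(mul_eq_zero.1 e1).resolve_right (hx j).1, (mul_eq_zero.1 e2).resolve_right (hx k).1⟩)
    have hc : {s | Us (Submodule.span K (Set.range (QQ x i))) s}.ncard ≤ 4 := by
      have hsub : {s | Us (Submodule.span K (Set.range (QQ x i))) s} ⊆ Set.range (SS i) := by
        intro s hs
        by_contra hn
        refine hs.1 (span_inf hx fun k hk => hn ⟨k, hk.symm⟩)
      calc _ ≤ (Set.range (SS i)).ncard := Set.ncard_le_ncard hsub (Set.finite_range _)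
        _ ≤ Nat.card (Fin 4) := by
          rw [← Set.image_univ]
          exact (Set.ncard_image_le Set.finite_univ).trans (by rw [Set.ncard_univ])
        _ = 4 := by simp
    filter_upwards [c1, c2] with t h3 h4
    omega
  · have h5 : ∑ k, QQ x i k ∈ Submodule.span K (Set.range (QQ x i)) :=
      Submodule.sum_mem _ fun k _ => Submodule.subset_span (Set.mem_range_self k)
    rwa [← sum_QQ hD] at h5

theorem t_GEN (h : S_CHAIN.{u}) (h2 : S_LOW2.{u}) : S_GEN.{u} := by
  intro K _ _ i p hp x hx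
  set y : Fin 10 → K := ∑ k, QQ (fun _ => 1) i k with hy
  have hyD : y ∈ Dt K i := by
    rw [hy, Fin.sum_univ_four]
    fin_cases i <;> simp [Dt, QQ, SS, pv, qv, E_apply]
  have hya : ∀ k, y (ia (SS i k)) = 1 := by
    intro k
    have h3 := comb_ia (fun _ => (1 : K)) i (fun _ => 1) k
    simp only [one_smul, mul_one] at h3
    exact h3
  have hyb : ∀ k, y (ib (SS i k)) = 1 := by
    intro k
    have h3 := comb_ib (fun _ => (1 : K)) i (fun _ => 1) k
    simp only [one_smul, mul_one] at h3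
    exact h3
  set P : Polynomial K := MvPolynomial.eval₂ Polynomial.C
    (fun j => Polynomial.C (x j) + Polynomial.X * Polynomial.C (y j)) p with hP
  have hev : ∀ c : K, Polynomial.eval c P = eval (x + c • y) p := by
    intro c
    rw [hP, ← Polynomial.coe_evalRingHom, MvPolynomial.hom_eval₂, MvPolynomial.eval,
      MvPolynomial.coe_eval₂Hom]
    congr 1
    · ext a
      simp
    · ext j
      simp only [Polynomial.coe_evalRingHom, Polynomial.eval_add, Polynomial.eval_C,
        Polynomial.eval_mul, Polynomial.eval_X, Pi.add_apply, Pi.smul_apply, smul_eq_mul]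
  have hD : ∀ c : K, x + c • y ∈ Dt K i := by
    intro c
    revert hx hyD
    generalize y = w
    fin_cases i <;> intro hx hw <;> simp [Dt] at hx hw ⊢ <;> simp [hx.1, hx.2, hw.1, hw.2]
  have hbad : (Set.range (fun k => - x (ia (SS i k))) ∪ Set.range (fun k => - x (ib (SS i k)))).Finite :=
    (Set.finite_range _).union (Set.finite_range _)
  have hzero : P = 0 := by
    refine Polynomial.eq_zero_of_infinite_isRoot P (hbad.infinite_compl.mono ?_)
    intro c hc
    change Polynomial.eval c P = 0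
    rw [hev]
    refine hp _ (mem_sec h h2 (hD c) fun k => ⟨fun h3 => ?_, fun h3 => ?_⟩)
    · rw [Pi.add_apply, Pi.smul_apply, hya, smul_eq_mul, mul_one] at h3
      exact hc (Or.inl ⟨k, by simp only []; linear_combination -h3⟩)
    · rw [Pi.add_apply, Pi.smul_apply, hyb, smul_eq_mul, mul_one] at h3
      exact hc (Or.inr ⟨k, by simp only []; linear_combination -h3⟩)
  have h0 := hev 0
  rw [hzero, Polynomial.eval_zero, zero_smul, add_zero] at h0
  exact h0.symm

end Pool.Agent.E8helper40.GC
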